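import Pool.Agent.MP_4b405e_nt.H94.Tri

/-! Three slices of a continuous selection in the plane cannot all be nowhere dense. -/

open Set Metric Complex Filter Topology

namespace Pool.Agent.MP_4b405e_nt.H94

variable {D : Set ℂ} {f0 f1 f2 : ℂ → ℂ} {p q : ℝ}

theorem close_step (h : Set3 D f0 f1 f2 p q) {S W W' : Set ℂ} (hS : Lev D f1 S) (hW : Lev D f0 W)
    (hW' : Lev D f0 W') {P P' z z' : ℂ} (PS : P ∈ S) (PS' : P' ∈ S) (PW : P ∈ W) (zW : z ∈ W)
    (PW' : P' ∈ W') (zW' : z' ∈ W') (hne : P ≠ P') : ∃ w ∈ segment ℝ z z', f2 w = f2 P' := by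
  have sg : IsCompact (segment ℝ z z') := by
    rw [segment_eq_image']
    exact isCompact_Icc.image (by fun_prop)
  obtain ⟨V, v1, v2, v3, v4, ⟨x, hx, xS⟩, ⟨y, hy, yW⟩, ⟨w, hw, wl⟩⟩ := three h.cvx h.cpt h.c2 h.i2
    (σ := S ∪ W') (lam := W ∪ segment ℝ z z') (A := P) (B := z') hS.1.isClosed hW'.1.isClosed
    (hW.1.union sg).isClosed (hS.2.1.union P' PS' PW' hW'.2.1)
    (hW.2.1.union z zW (left_mem_segment _ _ _) (convex_segment _ _).isPreconnected)
    (union_subset hS.2.2.1 hW'.2.2.1)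
    (union_subset hW.2.2.1 (h.cvx.segment_subset (hW.2.2.1 zW) (hW'.2.2.1 zW')))
    (Or.inl PS) (Or.inr zW') (Or.inl PW) (Or.inr (right_mem_segment _ _ _)) Subset.rfl PS zW'
    Subset.rfl
  have hV : Lev D f2 V := ⟨v1, v2, v3, v4⟩
  obtain rfl : P' = x := triangle h hS PS' xS ⟨V, W', y, hV, hW', hx, hy, yW, PW'⟩
  rcases wl with wl | wl
  · exact absurd (triangle h hS PS PS' ⟨V, W, w, hV, hW, hx, hw, wl, PW⟩) hne
  · exact ⟨w, wl, v4 w hw _ hx⟩

theorem two_points {c : ℂ} {g : ℂ → ℂ} (hg : Continuous g)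
    (hi : interior (g '' closedBall c (1 / 8)) = ∅) :
    ∃ S, Lev (closedBall c (1 / 8)) g S ∧ ∃ A ∈ S, ∃ B ∈ S, A ≠ B := by
  let u : ℝ → ℂ := fun s => c + ((s / 16 : ℝ) : ℂ) + ((s * (1 - s) / 16 : ℝ) : ℂ) * I
  let v : ℝ → ℂ := fun s => c + ((s / 16 : ℝ) : ℂ)
  have cu : Continuous u := by fun_prop
  have cv : Continuous v := by fun_prop
  have su : u '' Icc 0 1 ⊆ closedBall c (1 / 8) := by
    rintro _ ⟨s, ⟨s0, s1⟩, rfl⟩
    rw [mem_closedBall, dist_eq_norm]
    refine (norm_le_abs_re_add_abs_im _).trans ?_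
    have r1 : (u s - c).re = s / 16 := by simp [u]
    have r2 : (u s - c).im = s * (1 - s) / 16 := by simp [u]
    rw [r1, r2, abs_of_nonneg (by positivity), abs_of_nonneg (by nlinarith)]
    nlinarith
  have sv : v '' Icc 0 1 ⊆ closedBall c (1 / 8) := by
    rintro _ ⟨s, ⟨s0, s1⟩, rfl⟩
    rw [mem_closedBall, dist_eq_norm]
    simp only [v, add_sub_cancel_left, Complex.norm_real]
    rw [Real.norm_of_nonneg (by positivity)]
    linarith
  obtain ⟨W, w1, w2, w3, w4, ⟨x, hx, x1⟩, ⟨y, hy, y2⟩, ⟨z, hz, z3⟩⟩ := three (convex_closedBall _ _)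
    (isCompact_closedBall _ _) hg hi (σ := u '' Icc 0 1) (lam := v '' Icc 0 1)
    (C1 := u '' Icc 0 (1 / 2)) (C2 := u '' Icc (1 / 2) 1) (A := u 0) (B := u 1)
    (isCompact_Icc.image cu).isClosed (isCompact_Icc.image cu).isClosed
    (isCompact_Icc.image cv).isClosed (isPreconnected_Icc.image _ cu.continuousOn)
    (isPreconnected_Icc.image _ cv.continuousOn) su sv ⟨0, by simp, rfl⟩ ⟨1, by simp, rfl⟩
    ⟨0, by simp, by simp [u, v]⟩ ⟨1, by simp, by simp [u, v]⟩
    (by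
      rintro _ ⟨s, ⟨s0, s1⟩, rfl⟩
      rcases le_total s (1 / 2) with h | h
      · exact Or.inl ⟨s, ⟨s0, h⟩, rfl⟩
      · exact Or.inr ⟨s, ⟨h, s1⟩, rfl⟩)
    ⟨0, by simp, rfl⟩ ⟨1, by norm_num, rfl⟩ Subset.rfl
  refine ⟨W, ⟨w1, w2, w3, w4⟩, ?_⟩
  by_cases e1 : x = y
  · refine ⟨x, hx, z, hz, fun e2 => ?_⟩
    obtain ⟨s, ⟨-, s1⟩, hs⟩ := x1
    obtain ⟨t, ⟨t0, -⟩, ht⟩ := y2
    obtain ⟨r, -, hr⟩ := z3
    have k1 := congrArg Complex.re (hs.trans (e1.trans ht.symm))
    have k2 := congrArg Complex.im (hs.trans (e2.trans hr.symm))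
    simp only [u, v, add_re, ofReal_re, mul_re, I_re, I_im, ofReal_im, add_im, mul_im] at k1 k2
    have : s = 1 / 2 := by linarith
    rw [this] at k2
    norm_num at k2
  · exact ⟨x, hx, y, hy, e1⟩

theorem core {c : ℂ} (h : Set3 (closedBall c (1 / 2)) f0 f1 f2 p q) : False := by
  have KD : closedBall c (1 / 8) ⊆ closedBall c (1 / 2) := closedBall_subset_closedBall (by norm_num)
  obtain ⟨S, hS', A, AS, B, BS, hAB⟩ := two_points (c := c) h.c1
    (subset_eq_empty (interior_mono (image_mono KD)) h.i1)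
  have hS : Lev (closedBall c (1 / 2)) f1 S := ⟨hS'.1, hS'.2.1, hS'.2.2.1.trans KD, hS'.2.2.2⟩
  have d0 : B - A ≠ 0 := sub_ne_zero.2 hAB.symm
  have dn : 0 < ‖B - A‖ := norm_pos_iff.2 d0
  set H : ℝ := 3 / 8 / ‖B - A‖ with hH
  set N : ℂ := (B - A) * (H * I) with hN
  have nN : ‖N‖ = 3 / 8 := by
    rw [hN, norm_mul, norm_mul, norm_I, Complex.norm_real, Real.norm_of_nonneg (by positivity), hH]
    field_simp
  have inD : ∀ x ∈ S, x + N ∈ closedBall c (1 / 2) := by
    intro x hx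
    have := hS'.2.2.1 hx
    rw [mem_closedBall, dist_eq_norm] at this ⊢
    have := norm_add_le (x - c) N
    rw [show x + N - c = x - c + N by ring]
    linarith
  let ζ : ℂ → ℂ := fun x => (x - A) / (B - A)
  have cζ : Continuous ζ := by fun_prop
  let lam : Set ℂ := segment ℝ A (A + N) ∪ segment ℝ (A + N) (B + N) ∪ segment ℝ (B + N) B
  have sg : ∀ z z' : ℂ, IsCompact (segment ℝ z z') := by
    intro z z'
    rw [segment_eq_image']
    exact isCompact_Icc.image (by fun_prop)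
  have kl : IsCompact lam := ((sg _ _).union (sg _ _)).union (sg _ _)
  have pl : IsPreconnected lam :=
    ((convex_segment _ _).isPreconnected.union (A + N) (right_mem_segment _ _ _)
      (left_mem_segment _ _ _) (convex_segment _ _).isPreconnected).union (B + N)
      (Or.inr (right_mem_segment _ _ _)) (left_mem_segment _ _ _)
      (convex_segment _ _).isPreconnected
  have sl : lam ⊆ closedBall c (1 / 2) :=
    union_subset (union_subset (h.cvx.segment_subset (hS.2.2.1 AS) (inD A AS))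
      (h.cvx.segment_subset (inD A AS) (inD B BS))) (h.cvx.segment_subset (inD B BS) (hS.2.2.1 BS))
  have hl : ∀ x ∈ lam, (ζ x).re = 0 ∨ (ζ x).re = 1 ∨ (ζ x).im = H := by
    rintro x ((hx | hx) | hx) <;> rw [segment_eq_image'] at hx <;> obtain ⟨θ, -, rfl⟩ := hx
    · left
      have : ζ (A + θ • (A + N - A)) = ((θ * H : ℝ) : ℂ) * I := by
        simp only [ζ, hN, real_smul]
        push_cast
        field_simp
        ring
      simp only [this]
      simp
    · right; right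
      have : ζ (A + N + θ • (B + N - (A + N))) = (θ : ℂ) + H * I := by
        simp only [ζ, hN, real_smul]
        field_simp
        ring
      simp only [this]
      simp
    · right; left
      have : ζ (B + N + θ • (B - (B + N))) = 1 + (((1 - θ) * H : ℝ) : ℂ) * I := by
        simp only [ζ, hN, real_smul]
        push_cast
        field_simp
        ring
      simp only [this]
      simp
  have hK : ∀ x ∈ S, (ζ x).im < H := by
    intro x hx
    refine (im_le_norm _).trans_lt ?_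
    have a := hS'.2.2.1 hx
    have b := hS'.2.2.1 AS
    rw [mem_closedBall, dist_eq_norm] at a b
    have := norm_sub_le (x - c) (A - c)
    rw [show x - c - (A - c) = x - A by ring] at this
    simp only [ζ]
    rw [norm_div, hH]
    exact div_lt_div_of_pos_right (by linarith) dn
  have lev : ∀ u : ℝ, 0 ≤ u → u ≤ 1 → ∃ W, Lev (closedBall c (1 / 2)) f0 W ∧
      ∃ P z, P ∈ S ∧ P ∈ W ∧ (ζ P).re = u ∧ z ∈ W ∧ z ∈ lam := by
    intro u u0 u1
    obtain ⟨W, w1, w2, w3, w4, ⟨x, hx, x1⟩, ⟨y, hy, y2⟩, ⟨z, hz, z3⟩⟩ := three h.cvx h.cpt h.c0 h.i0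
      (σ := S) (lam := lam) (C1 := S ∩ {x | (ζ x).re ≤ u}) (C2 := S ∩ {x | u ≤ (ζ x).re})
      (A := A) (B := B) (hS.1.isClosed.inter (isClosed_le (by fun_prop) continuous_const))
      (hS.1.isClosed.inter (isClosed_le continuous_const (by fun_prop))) kl.isClosed hS.2.1 pl
      hS.2.2.1 sl AS BS (Or.inl (Or.inl (left_mem_segment _ _ _))) (Or.inr (right_mem_segment _ _ _))
      (fun x hx => (le_total (ζ x).re u).imp (fun h => ⟨hx, h⟩) fun h => ⟨hx, h⟩)
      ⟨AS, by simpa [ζ] using u0⟩ ⟨BS, by simpa [ζ, div_self d0] using u1⟩ Subset.rfl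
    obtain rfl : x = y := h.inj01 (w4 x hx y hy) (hS.2.2.2 x x1.1 y y2.1)
    exact ⟨W, ⟨w1, w2, w3, w4⟩, x, z, x1.1, hx, le_antisymm x1.2 y2.2, hz, z3⟩
  let u : ℕ → ℝ := fun n => 1 / 3 + 1 / 3 * (1 / ((n : ℝ) + 1))
  have ub : ∀ n, 1 / 3 ≤ u n ∧ u n ≤ 2 / 3 := by
    intro n
    have a : 0 < 1 / ((n : ℝ) + 1) := by positivity
    have b : 1 / ((n : ℝ) + 1) ≤ 1 := (div_le_one (by positivity)).2 (by linarith [Nat.cast_nonneg (α := ℝ) n])
    simp only [u]
    constructor <;> linarith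
  have ui : Function.Injective u := by
    intro m n e
    simp only [u, add_right_inj, mul_eq_mul_left_iff, one_div, inv_inj, add_left_inj,
      Nat.cast_inj] at e
    exact e.resolve_right (by norm_num)
  choose W hW P z PS PW Pu zW zl using fun n => lev (u n) (by linarith [ub n]) (by linarith [ub n])
  obtain ⟨⟨P₀, z₀⟩, ⟨P₀S, z₀l⟩, φ, hφ, ht⟩ := (hS.1.prod kl).tendsto_subseq
    (x := fun n => (P n, z n)) fun n => ⟨PS n, zl n⟩
  have tP : Tendsto (fun n => P (φ n)) atTop (𝓝 P₀) := (continuous_fst.tendsto _).comp ht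
  have tz : Tendsto (fun n => z (φ n)) atTop (𝓝 z₀) := (continuous_snd.tendsto _).comp ht
  have tP' := tP.comp (tendsto_add_atTop_nat 1)
  have tz' := tz.comp (tendsto_add_atTop_nat 1)
  choose w hw fw using fun n => close_step h hS (hW (φ n)) (hW (φ (n + 1))) (PS _) (PS _) (PW _)
    (zW _) (PW _) (zW _) (fun e => by
      have := ui ((Pu (φ n)).symm.trans (e ▸ Pu (φ (n + 1))))
      exact absurd (hφ.injective this) (by omega))
  have tw : Tendsto w atTop (𝓝 z₀) := by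
    refine tz.congr_dist (squeeze_zero (fun _ => dist_nonneg) (fun n => ?_)
      (g := fun n => dist (z (φ n)) (z (φ (n + 1)))) ?_)
    · have := dist_add_dist_of_mem_segment (hw n)
      linarith [dist_nonneg (x := w n) (y := z (φ (n + 1)))]
    · simpa using tz.dist tz'
  have e2 : f2 P₀ = f2 z₀ := tendsto_nhds_unique ((h.c2.tendsto _).comp tP')
    (((h.c2.tendsto _).comp tw).congr fun n => fw n)
  have e0 : f0 P₀ = f0 z₀ := tendsto_nhds_unique ((h.c0.tendsto _).comp tP)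
    (((h.c0.tendsto _).comp tz).congr fun n => (hW (φ n)).2.2.2 _ (zW _) _ (PW _))
  obtain rfl : P₀ = z₀ := h.inj02 e0 e2
  have tζ : Tendsto (fun n => u (φ n)) atTop (𝓝 (ζ P₀).re) :=
    (((continuous_re.comp cζ).tendsto _).comp tP).congr fun n => Pu _
  have l1 : 1 / 3 ≤ (ζ P₀).re := ge_of_tendsto' tζ fun n => (ub _).1
  have l2 : (ζ P₀).re ≤ 2 / 3 := le_of_tendsto' tζ fun n => (ub _).2
  have := hK P₀ P₀S
  rcases hl P₀ z₀l with e | e | e <;> linarith

theorem plane (a : EuclideanSpace ℝ (Fin 2) → EuclideanSpace ℝ (Fin 2))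
    (ha : ContinuousOn a {r | ∀ j, r j ∈ Icc (0 : ℝ) 1}) (t₀ t₁ t₂ : ℝ) (h₁ : t₀ < t₁)
    (h₂ : t₁ < t₂) : ∃ t ∈ ({t₀, t₁, t₂} : Set ℝ),
      (interior ((fun r => a r + t • r) '' {r | ∀ j, r j ∈ Icc (0 : ℝ) 1})).Nonempty := by
  by_contra hn
  simp only [not_exists, not_and, Set.not_nonempty_iff_eq_empty] at hn
  let e := orthonormalBasisOneI.repr
  let k : ℂ → ℂ := fun z => ((projIcc (0 : ℝ) 1 zero_le_one z.re : ℝ) : ℂ) +
    ((projIcc (0 : ℝ) 1 zero_le_one z.im : ℝ) : ℂ) * I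
  have ck : Continuous k := by
    have := continuous_projIcc (a := (0 : ℝ)) (b := 1) (h := zero_le_one)
    fun_prop
  have ke : ∀ z, e (k z) ∈ {r : EuclideanSpace ℝ (Fin 2) | ∀ j, r j ∈ Icc (0 : ℝ) 1} := by
    intro z j
    fin_cases j
    · simp [e, k]
    · simp [e, k]
  let c : ℂ := ((1 / 2 : ℝ) : ℂ) + ((1 / 2 : ℝ) : ℂ) * I
  have kz : ∀ z ∈ closedBall c (1 / 2), k z = z := by
    intro z hz
    rw [mem_closedBall, dist_eq_norm] at hz
    have a1 := abs_le.1 ((abs_re_le_norm _).trans hz)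
    have a2 := abs_le.1 ((abs_im_le_norm _).trans hz)
    simp only [c, sub_re, add_re, ofReal_re, mul_re, I_re, I_im, ofReal_im, sub_im, add_im,
      mul_im] at a1 a2
    simp only [k]
    rw [projIcc_of_mem _ ⟨by linarith [a1.1], by linarith [a1.2]⟩,
      projIcc_of_mem _ ⟨by linarith [a2.1], by linarith [a2.2]⟩]
    simp
  let b : ℂ → ℂ := fun z => e.symm (a (e (k z)))
  have cb : Continuous b := e.symm.continuous.comp
    (ha.comp_continuous (e.continuous.comp ck) ke)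
  have hi : ∀ t ∈ ({t₀, t₁, t₂} : Set ℝ),
      interior ((fun z => b z + (t : ℂ) * z) '' closedBall c (1 / 2)) = ∅ := by
    intro t ht
    have := congrArg (e.symm.toHomeomorph '' ·) (hn t ht)
    simp only [Homeomorph.image_interior, image_empty] at this
    refine subset_eq_empty (interior_mono ?_) this
    rintro _ ⟨z, hz, rfl⟩
    refine ⟨_, ⟨e (k z), ke z, rfl⟩, ?_⟩
    simp [b, kz z hz]
  exact core (c := c) (f0 := fun z => b z + (t₀ : ℂ) * z) (f1 := fun z => b z + (t₁ : ℂ) * z)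
    (f2 := fun z => b z + (t₂ : ℂ) * z) (p := t₁ - t₀) (q := t₂ - t₁)
    ⟨convex_closedBall _ _, isCompact_closedBall _ _, by fun_prop, by fun_prop, by fun_prop,
      sub_pos.2 h₁, sub_pos.2 h₂, fun r => by push_cast; ring, fun r => by push_cast; ring,
      hi _ (by simp), hi _ (by simp), hi _ (by simp)⟩

end Pool.Agent.MP_4b405e_nt.H94
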