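import Mathlib

/-! Plane topology for maps with nowhere dense image: logarithms, separation of components of
fibres, the grid of order two and the three-colour lemma. -/

open Set Metric Complex

namespace Pool.Agent.MP_4b405e_nt.H94

theorem exists_log {D : Set ℂ} (hD : Convex ℝ D) (hne : D.Nonempty) {Z : ℂ → ℂ}
    (hZ : ContinuousOn Z D) (h0 : ∀ x ∈ D, Z x ≠ 0) :
    ∃ L : ℂ → ℂ, ContinuousOn L D ∧ ∀ x ∈ D, cexp (L x) = Z x := by
  classical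
  have := hD.contractibleSpace hne
  have := hD.locallyPathConnectedSpace
  obtain ⟨x₀, hx₀⟩ := hne
  obtain ⟨F, ⟨-, hF⟩, -⟩ := isCoveringMapOn_exp.existsUnique_continuousMap_lifts
    (⟨D.domRestrict Z, hZ.domRestrict⟩ : C(D, ℂ)) (a₀ := ⟨x₀, hx₀⟩) (e₀ := log (Z x₀))
    (exp_log (h0 x₀ hx₀)) (fun a => h0 a a.2)
  refine ⟨fun x => if h : x ∈ D then F ⟨x, h⟩ else 0, ?_, fun x hx => ?_⟩
  · rw [continuousOn_iff_continuous_domRestrict]
    convert F.continuous using 1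
    ext x
    simp
  · simp only [hx, dif_pos]
    exact congrFun hF ⟨x, hx⟩

theorem const_of_exp {W : Set ℂ} (hW : IsPreconnected W) {g : ℂ → ℂ} (hg : ContinuousOn g W)
    {κ : ℂ} (h : ∀ x ∈ W, cexp (g x) = κ) {x y : ℂ} (hx : x ∈ W) (hy : y ∈ W) : g x = g y :=
  isCoveringMap_exp.constOn_of_comp hW hg
    (fun a ha b hb => Subtype.ext ((h a ha).trans (h b hb).symm)) hx hy

theorem index {D σ lam : Set ℂ} (hD : Convex ℝ D) {H1 H2 H3 : ℂ → ℝ}
    (c1 : ContinuousOn H1 D) (c2 : ContinuousOn H2 D) (c3 : ContinuousOn H3 D)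
    (n1 : ∀ x ∈ D, 0 ≤ H1 x) (n2 : ∀ x ∈ D, 0 ≤ H2 x) (n3 : ∀ x ∈ D, 0 ≤ H3 x)
    (hpos : ∀ x ∈ D, 0 < H1 x ∨ 0 < H2 x ∨ 0 < H3 x)
    (hz : ∀ x ∈ D, H1 x = 0 ∨ H2 x = 0 ∨ H3 x = 0)
    (hσ : IsPreconnected σ) (hl : IsPreconnected lam) (sσ : σ ⊆ D) (sl : lam ⊆ D)
    {A B : ℂ} (Aσ : A ∈ σ) (Bσ : B ∈ σ) (Al : A ∈ lam) (Bl : B ∈ lam)
    (h12 : ∀ x ∈ σ, H1 x = 0 ∨ H2 x = 0) (hA : H1 A = 0) (hB : H2 B = 0)
    (h3 : ∀ x ∈ lam, H3 x = 0) : False := by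
  set Z : ℂ → ℂ := fun x => ((H3 x - H1 x - H2 x : ℝ) : ℂ) + ((H1 x - H2 x : ℝ) : ℂ) * I with hZ
  have hre : ∀ x, (Z x).re = H3 x - H1 x - H2 x := fun x => by simp [hZ]
  have him : ∀ x, (Z x).im = H1 x - H2 x := fun x => by simp [hZ]
  have cZ : ContinuousOn Z D :=
    (continuous_ofReal.comp_continuousOn ((c3.sub c1).sub c2)).add
      ((continuous_ofReal.comp_continuousOn (c1.sub c2)).mul continuousOn_const)
  have h0 : ∀ x ∈ D, Z x ≠ 0 := by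
    intro x hx h
    have e1 := hre x
    have e2 := him x
    rw [h] at e1 e2
    simp only [zero_re, zero_im] at e1 e2
    have := n1 x hx
    rcases hpos x hx with p | p | p <;> rcases hz x hx with q | q | q <;> linarith
  obtain ⟨L, cL, hL⟩ := exists_log hD ⟨A, sσ Aσ⟩ cZ h0
  have s1 : ∀ x ∈ σ, Z x ∈ slitPlane := by
    intro x hx
    rw [mem_slitPlane_iff, hre, him]
    have a1 := n1 x (sσ hx)
    have a2 := n2 x (sσ hx)
    have a3 := n3 x (sσ hx)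
    by_cases h : H1 x - H2 x = 0
    · left
      rcases h12 x hx with q | q <;> rcases hpos x (sσ hx) with p | p | p <;> linarith
    · exact Or.inr h
  have s2 : ∀ x ∈ lam, -Z x ∈ slitPlane := by
    intro x hx
    rw [mem_slitPlane_iff, neg_re, hre]
    have a1 := n1 x (sl hx)
    have a2 := n2 x (sl hx)
    have a3 := h3 x hx
    left
    rcases hpos x (sl hx) with p | p | p <;> linarith
  have k1 : L A - log (Z A) = L B - log (Z B) := by
    refine const_of_exp (g := fun x => L x - log (Z x)) (κ := 1) hσ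
      ((cL.mono sσ).sub ((cZ.mono sσ).clog s1)) (fun x hx => ?_) Aσ Bσ
    rw [Complex.exp_sub, hL x (sσ hx), exp_log (h0 x (sσ hx)), div_self (h0 x (sσ hx))]
  have k2 : L A - log (-Z A) = L B - log (-Z B) := by
    refine const_of_exp (g := fun x => L x - log (-Z x)) (κ := -1) hl
      ((cL.mono sl).sub ((cZ.mono sl).neg.clog s2)) (fun x hx => ?_) Al Bl
    rw [Complex.exp_sub, hL x (sl hx), exp_log (neg_ne_zero.2 (h0 x (sl hx))), div_neg,
      div_self (h0 x (sl hx))]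
  have iA : (Z A).im < 0 := by
    rw [him]
    have := h3 A Al
    rcases hpos A (sσ Aσ) with p | p | p <;> linarith
  have iB : 0 < (Z B).im := by
    rw [him]
    have := h3 B Bl
    rcases hpos B (sσ Bσ) with p | p | p <;> linarith
  have m1 := congrArg Complex.im k1
  have m2 := congrArg Complex.im k2
  simp only [sub_im, log_im] at m1 m2
  rw [arg_neg_eq_arg_add_pi_of_im_neg iA, arg_neg_eq_arg_sub_pi_of_im_pos iB] at m2
  have := Real.pi_pos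
  linarith

theorem clopen_miss {F : Set ℂ} (hF : IsCompact F) (x : F) {C : Set ℂ} (hC : IsClosed C)
    (h : Disjoint ((↑) '' (connectedComponent x) : Set ℂ) C) :
    ∃ Z : Set F, IsClopen Z ∧ x ∈ Z ∧ ∀ y ∈ Z, (y : ℂ) ∉ C := by
  classical
  have : CompactSpace F := isCompact_iff_compactSpace.1 hF
  have hK : IsCompact ((↑) ⁻¹' C : Set F) := (hC.preimage continuous_subtype_val).isCompact
  have hd : ((↑) ⁻¹' C : Set F) ∩ ⋂ s : {s : Set F // IsClopen s ∧ x ∈ s}, (s : Set F) = ∅ := by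
    rw [← connectedComponent_eq_iInter_isClopen]
    ext y
    simp only [mem_inter_iff, mem_preimage, mem_empty_iff_false, iff_false, not_and]
    intro hy hy'
    exact (Set.disjoint_left.1 h) ⟨y, hy', rfl⟩ hy
  obtain ⟨t, ht⟩ := hK.elim_finite_subfamily_closed _ (fun s => s.2.1.1) hd
  refine ⟨⋂ s ∈ t, (s : Set F), isClopen_biInter_finset fun s _ => s.2.1,
    mem_iInter₂.2 fun s _ => s.2.2, fun y hy hyC => ?_⟩
  have : y ∈ ((↑) ⁻¹' C : Set F) ∩ ⋂ s ∈ t, (s : Set F) := ⟨hyC, hy⟩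
  rw [ht] at this
  exact this

theorem sep {D : Set ℂ} (hD : IsCompact D) {f : ℂ → ℂ} (hf : Continuous f) (y : ℂ)
    {C1 C2 C3 : Set ℂ} (h1 : IsClosed C1) (h2 : IsClosed C2) (h3 : IsClosed C3)
    (h : ∀ W : Set ℂ, IsCompact W → IsPreconnected W → W ⊆ D → (∀ p ∈ W, f p = y) →
      Disjoint W C1 ∨ Disjoint W C2 ∨ Disjoint W C3) :
    ∃ ε > 0, ∃ O1 O2 O3 : Set ℂ, IsOpen O1 ∧ IsOpen O2 ∧ IsOpen O3 ∧ Disjoint O1 O2 ∧
      Disjoint O1 O3 ∧ Disjoint O2 O3 ∧ Disjoint O1 C1 ∧ Disjoint O2 C2 ∧ Disjoint O3 C3 ∧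
      ∀ x ∈ D, f x ∈ ball y ε → x ∈ O1 ∨ x ∈ O2 ∨ x ∈ O3 := by
  classical
  set F : Set ℂ := D ∩ f ⁻¹' {y} with hFd
  have hF : IsCompact F := hD.inter_right (isClosed_singleton.preimage hf)
  have : CompactSpace F := isCompact_iff_compactSpace.1 hF
  have key : ∀ x : F, ∃ Z : Set F, IsClopen Z ∧ x ∈ Z ∧ ((∀ y ∈ Z, (y : ℂ) ∉ C1) ∨
      (∀ y ∈ Z, (y : ℂ) ∉ C2) ∨ (∀ y ∈ Z, (y : ℂ) ∉ C3)) := by
    intro x
    have := h ((↑) '' (connectedComponent x))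
      (isClosed_connectedComponent.isCompact.image continuous_subtype_val)
      (isPreconnected_connectedComponent.image _ continuous_subtype_val.continuousOn)
      (by rintro _ ⟨p, -, rfl⟩; exact p.2.1) (by rintro _ ⟨p, -, rfl⟩; exact p.2.2)
    rcases this with q | q | q
    · obtain ⟨Z, a, b, c⟩ := clopen_miss hF x h1 q
      exact ⟨Z, a, b, Or.inl c⟩
    · obtain ⟨Z, a, b, c⟩ := clopen_miss hF x h2 q
      exact ⟨Z, a, b, Or.inr (Or.inl c)⟩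
    · obtain ⟨Z, a, b, c⟩ := clopen_miss hF x h3 q
      exact ⟨Z, a, b, Or.inr (Or.inr c)⟩
  choose Z hZ hxZ hZC using key
  obtain ⟨t, ht⟩ := isCompact_univ.elim_finite_subcover Z (fun x => (hZ x).2)
    (fun x _ => mem_iUnion.2 ⟨x, hxZ x⟩)
  let U : Set ℂ → Set F := fun C => ⋃ x ∈ t.filter (fun x => ∀ y ∈ Z x, (y : ℂ) ∉ C), Z x
  have hU : ∀ C, IsClopen (U C) := fun C => isClopen_biUnion_finset fun x _ => hZ x
  have hUC : ∀ C, ∀ y ∈ U C, (y : ℂ) ∉ C := by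
    intro C y hy
    obtain ⟨x, hx, hy⟩ := mem_iUnion₂.1 hy
    exact (Finset.mem_filter.1 hx).2 y hy
  have hcov : ∀ p : F, p ∈ U C1 ∨ p ∈ U C2 ∨ p ∈ U C3 := by
    intro p
    obtain ⟨x, hx, hp⟩ := mem_iUnion₂.1 (ht (mem_univ p))
    rcases hZC x with q | q | q
    · exact Or.inl (mem_iUnion₂.2 ⟨x, Finset.mem_filter.2 ⟨hx, q⟩, hp⟩)
    · exact Or.inr (Or.inl (mem_iUnion₂.2 ⟨x, Finset.mem_filter.2 ⟨hx, q⟩, hp⟩))
    · exact Or.inr (Or.inr (mem_iUnion₂.2 ⟨x, Finset.mem_filter.2 ⟨hx, q⟩, hp⟩))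
  have cp : ∀ {G : Set F}, IsClopen G → IsCompact ((↑) '' G : Set ℂ) := fun hG =>
    hG.1.isCompact.image continuous_subtype_val
  have dj : ∀ {G G' : Set F}, Disjoint G G' → Disjoint ((↑) '' G : Set ℂ) ((↑) '' G') :=
    fun h => (disjoint_image_iff Subtype.val_injective).2 h
  have g1 := cp (hU C1)
  have g2 := cp ((hU C2).diff (hU C1))
  have g3 := cp ((hU C3).diff ((hU C1).union (hU C2)))
  obtain ⟨U12, V12, a1, a2, a3, a4, a5⟩ := SeparatedNhds.of_isCompact_isCompact g1 g2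
    (dj disjoint_sdiff_right)
  obtain ⟨U13, V13, b1, b2, b3, b4, b5⟩ := SeparatedNhds.of_isCompact_isCompact g1 g3
    (dj (Set.disjoint_left.2 fun p hp hq => hq.2 (Or.inl hp)))
  obtain ⟨U23, V23, d1, d2, d3, d4, d5⟩ := SeparatedNhds.of_isCompact_isCompact g2 g3
    (dj (Set.disjoint_left.2 fun p hp hq => hq.2 (Or.inr hp.1)))
  have o1 : IsOpen (U12 ∩ U13 ∩ C1ᶜ) := (a1.inter b1).inter h1.isOpen_compl
  have o2 : IsOpen (V12 ∩ U23 ∩ C2ᶜ) := (a2.inter d1).inter h2.isOpen_compl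
  have o3 : IsOpen (V13 ∩ V23 ∩ C3ᶜ) := (b2.inter d2).inter h3.isOpen_compl
  have hK : IsCompact (f '' (D \ ((U12 ∩ U13 ∩ C1ᶜ) ∪ (V12 ∩ U23 ∩ C2ᶜ) ∪ (V13 ∩ V23 ∩ C3ᶜ)))) :=
    (hD.diff ((o1.union o2).union o3)).image hf
  have hy : y ∈ (f '' (D \ ((U12 ∩ U13 ∩ C1ᶜ) ∪ (V12 ∩ U23 ∩ C2ᶜ) ∪ (V13 ∩ V23 ∩ C3ᶜ))))ᶜ := by
    rintro ⟨x, ⟨hx, hn⟩, hfx⟩
    let p : F := ⟨x, hx, hfx⟩
    apply hn
    by_cases e1 : p ∈ U C1
    · exact Or.inl (Or.inl ⟨⟨a3 ⟨p, e1, rfl⟩, b3 ⟨p, e1, rfl⟩⟩, hUC _ p e1⟩)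
    by_cases e2 : p ∈ U C2
    · exact Or.inl (Or.inr ⟨⟨a4 ⟨p, ⟨e2, e1⟩, rfl⟩, d3 ⟨p, ⟨e2, e1⟩, rfl⟩⟩, hUC _ p e2⟩)
    have e3 : p ∈ U C3 := ((hcov p).resolve_left e1).resolve_left e2
    have e4 : p ∈ U C3 \ (U C1 ∪ U C2) := ⟨e3, fun h => h.elim e1 e2⟩
    exact Or.inr ⟨⟨b4 ⟨p, e4, rfl⟩, d4 ⟨p, e4, rfl⟩⟩, hUC _ p e3⟩
  obtain ⟨ε, hε, hb⟩ := Metric.isOpen_iff.1 hK.isClosed.isOpen_compl y hy
  refine ⟨ε, hε, _, _, _, o1, o2, o3,
    a5.mono (fun _ h => h.1.1) (fun _ h => h.1.1), b5.mono (fun _ h => h.1.2) (fun _ h => h.1.1),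
    d5.mono (fun _ h => h.1.2) (fun _ h => h.1.2),
    Set.disjoint_left.2 fun _ h h' => h.2 h', Set.disjoint_left.2 fun _ h h' => h.2 h',
    Set.disjoint_left.2 fun _ h h' => h.2 h', fun x hx hfx => ?_⟩
  by_contra hn
  apply hb hfx
  refine ⟨x, ⟨hx, fun h => hn ?_⟩, rfl⟩
  rcases h with (h | h) | h
  · exact Or.inl h
  · exact Or.inr (Or.inl h)
  · exact Or.inr (Or.inr h)

theorem dense_affine {X : Set ℂ} (hX : IsClosed X) (hi : interior X = ∅) (u κ : ℂ) (hκ : κ ≠ 0) :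
    IsOpen {e : ℂ | u + κ * e ∉ X} ∧ Dense {e : ℂ | u + κ * e ∉ X} := by
  refine ⟨hX.isOpen_compl.preimage (f := fun e => u + κ * e) (by fun_prop), ?_⟩
  exact (interior_eq_empty_iff_dense_compl.1 hi).preimage (f := fun e => u + κ * e)
    ((Homeomorph.addLeft u).isOpenMap.comp (Homeomorph.mulLeft₀ κ hκ).isOpenMap)

theorem near_int {s η d : ℝ} (hη : 0 < η) {m m' : ℤ} (h : m ≠ m')
    (a : -d < s - m * η ∧ s - m * η < η + d) (b : -d < s - m' * η ∧ s - m' * η < η + d) :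
    ∃ k : ℤ, |s - k * η| < d := by
  rcases lt_or_gt_of_ne h with h | h
  · have : (m : ℝ) + 1 ≤ m' := by exact_mod_cast h
    exact ⟨m', abs_lt.2 ⟨b.1, by nlinarith [a.2]⟩⟩
  · have : (m' : ℝ) + 1 ≤ m := by exact_mod_cast h
    exact ⟨m, abs_lt.2 ⟨a.1, by nlinarith [b.2]⟩⟩

theorem close_int {s η d : ℝ} (hη : 0 < η) (hd : 4 * d ≤ η) {m m' : ℤ}
    (a : -d < s - m * η ∧ s - m * η < η + d) (b : -d < s - m' * η ∧ s - m' * η < η + d) :
    m' ≤ m + 1 := by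
  by_contra h
  have : (m : ℝ) + 2 ≤ m' := by exact_mod_cast (by omega : m + 2 ≤ m')
  nlinarith [a.2, b.1]

theorem grid {X : Set ℂ} (hX : IsCompact X) (hi : interior X = ∅) {δ : ℝ} (hδ : 0 < δ) :
    ∃ (T : Finset (ℤ × ℤ)) (φ : ℤ × ℤ → ℂ → ℝ) (c : ℤ × ℤ → ℂ), (∀ n, Continuous (φ n)) ∧
      (∀ n p, 0 ≤ φ n p) ∧ (∀ n p, φ n p ≠ 0 → p ∈ closedBall (c n) (δ / 2)) ∧
      (∀ p ∈ X, ∃ n ∈ T, 0 < φ n p) ∧
      ∀ p ∈ X, ∀ n1 n2 n3, 0 < φ n1 p → 0 < φ n2 p → 0 < φ n3 p →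
        n1 = n2 ∨ n1 = n3 ∨ n2 = n3 := by
  set η := δ / 8 with hηd
  have hη : 0 < η := by positivity
  have hv := fun n : ℤ × ℤ => dense_affine hX.isClosed hi
    (((n.1 * η : ℝ) : ℂ) + ((n.2 * η : ℝ) : ℂ) * I) 1 one_ne_zero
  obtain ⟨v, hv⟩ := (dense_iInter_of_isOpen (fun n => (hv n).1) (fun n => (hv n).2)).nonempty
  simp only [mem_iInter, mem_ofPred_eq, one_mul] at hv
  let V : Set ℂ := {p | (p.re - v.re) / η ∈ range ((↑) : ℤ → ℝ)} ∩
    {p | (p.im - v.im) / η ∈ range ((↑) : ℤ → ℝ)}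
  have hV : IsClosed V :=
    (Int.isClosedEmbedding_coe_real.isClosed_range.preimage (by fun_prop)).inter
      (Int.isClosedEmbedding_coe_real.isClosed_range.preimage (by fun_prop))
  have hXV : X ⊆ Vᶜ := by
    rintro p hp ⟨⟨m, hm⟩, ⟨n, hn⟩⟩
    apply hv (m, n)
    convert hp using 1
    rw [eq_div_iff hη.ne'] at hm hn
    apply Complex.ext <;> simp <;> linarith
  obtain ⟨ρ, hρ, hth⟩ := hX.exists_thickening_subset_open hV.isOpen_compl hXV
  set d := min (ρ / 2) (η / 4) with hd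
  have d0 : 0 < d := by positivity
  have d1 : d ≤ ρ / 2 := min_le_left _ _
  have d2 : d ≤ η / 4 := min_le_right _ _
  let τ : ℝ → ℝ := fun t => max 0 (min (t + d) (η + d - t))
  have cτ : Continuous τ := by fun_prop
  have τ0 : ∀ t, 0 ≤ τ t := fun t => le_max_left _ _
  have τp : ∀ t, 0 < τ t ↔ -d < t ∧ t < η + d := by
    intro t
    simp only [τ, lt_max_iff, lt_self_iff_false, false_or, lt_min_iff]
    constructor <;> rintro ⟨a, b⟩ <;> constructor <;> linarith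
  let φ : ℤ × ℤ → ℂ → ℝ := fun n p => τ (p.re - v.re - n.1 * η) * τ (p.im - v.im - n.2 * η)
  have cφ : ∀ n, Continuous (φ n) := fun n => by
    simp only [φ]
    fun_prop
  have φp : ∀ n p, 0 < φ n p → (-d < p.re - v.re - n.1 * η ∧ p.re - v.re - n.1 * η < η + d) ∧
      (-d < p.im - v.im - n.2 * η ∧ p.im - v.im - n.2 * η < η + d) := by
    intro n p h
    rcases pos_and_pos_or_neg_and_neg_of_mul_pos h with h | h
    · exact ⟨(τp _).1 h.1, (τp _).1 h.2⟩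
    · exact absurd h.1 (not_lt.2 (τ0 _))
  have cov : ∀ p : ℂ, ∃ n, 0 < φ n p := by
    intro p
    have one : ∀ s : ℝ, 0 < τ (s - ⌊s / η⌋ * η) := by
      intro s
      have a := Int.floor_le (s / η)
      have b := Int.lt_floor_add_one (s / η)
      rw [le_div_iff₀ hη] at a
      rw [div_lt_iff₀ hη] at b
      rw [τp]
      constructor <;> nlinarith
    exact ⟨(⌊(p.re - v.re) / η⌋, ⌊(p.im - v.im) / η⌋), mul_pos (one _) (one _)⟩
  obtain ⟨T, hT⟩ := hX.elim_finite_subcover (fun n => {p | 0 < φ n p})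
    (fun n => isOpen_lt continuous_const (cφ n)) (fun p _ => mem_iUnion.2 (cov p))
  refine ⟨T, φ, fun n => v + (((n.1 * η : ℝ) : ℂ) + ((n.2 * η : ℝ) : ℂ) * I), cφ,
    fun n p => mul_nonneg (τ0 _) (τ0 _), fun n p h => ?_, fun p hp => ?_,
    fun p hp n1 n2 n3 e1 e2 e3 => ?_⟩
  · obtain ⟨a, b⟩ := φp n p (lt_of_le_of_ne (mul_nonneg (τ0 _) (τ0 _)) (Ne.symm h))
    rw [mem_closedBall, dist_eq_norm]
    refine (norm_le_abs_re_add_abs_im _).trans ?_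
    have r1 : |(p - (v + (((n.1 * η : ℝ) : ℂ) + ((n.2 * η : ℝ) : ℂ) * I))).re| ≤ 2 * η := by
      simp only [sub_re, add_re, ofReal_re, mul_re, I_re, I_im, ofReal_im]
      rw [abs_le]
      constructor <;> linarith [a.1, a.2]
    have r2 : |(p - (v + (((n.1 * η : ℝ) : ℂ) + ((n.2 * η : ℝ) : ℂ) * I))).im| ≤ 2 * η := by
      simp only [sub_im, add_im, ofReal_re, mul_im, I_re, I_im, ofReal_im]
      rw [abs_le]
      constructor <;> linarith [b.1, b.2]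
    linarith
  · obtain ⟨n, hn, h⟩ := mem_iUnion₂.1 (hT hp)
    exact ⟨n, hn, h⟩
  · by_contra hne
    push Not at hne
    obtain ⟨q12, q13, q23⟩ := hne
    obtain ⟨a1, b1⟩ := φp _ _ e1
    obtain ⟨a2, b2⟩ := φp _ _ e2
    obtain ⟨a3, b3⟩ := φp _ _ e3
    have w : 4 * d ≤ η := by linarith
    have x12 := close_int hη w a1 a2
    have x21 := close_int hη w a2 a1
    have x13 := close_int hη w a1 a3
    have x31 := close_int hη w a3 a1
    have x23 := close_int hη w a2 a3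
    have x32 := close_int hη w a3 a2
    have y12 := close_int hη w b1 b2
    have y21 := close_int hη w b2 b1
    have y13 := close_int hη w b1 b3
    have y31 := close_int hη w b3 b1
    have y23 := close_int hη w b2 b3
    have y32 := close_int hη w b3 b2
    simp only [ne_eq, Prod.ext_iff, not_and] at q12 q13 q23
    have hk : ∃ k : ℤ, |p.re - v.re - k * η| < d := by
      by_cases u : n1.1 = n2.1
      · exact near_int hη (m := n1.1) (m' := n3.1) (by omega) a1 a3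
      · exact near_int hη u a1 a2
    have hl : ∃ k : ℤ, |p.im - v.im - k * η| < d := by
      by_cases u : n1.2 = n2.2
      · exact near_int hη (m := n1.2) (m' := n3.2) (by omega) b1 b3
      · exact near_int hη u b1 b2
    obtain ⟨k, hk⟩ := hk
    obtain ⟨l, hl⟩ := hl
    refine hth (a := v + (((k * η : ℝ) : ℂ) + ((l * η : ℝ) : ℂ) * I)) ?_ ⟨⟨k, ?_⟩, ⟨l, ?_⟩⟩
    · refine mem_thickening_iff.2 ⟨p, hp, ?_⟩
      rw [dist_comm, dist_eq_norm]
      refine (norm_le_abs_re_add_abs_im _).trans_lt ?_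
      have r1 : (p - (v + (((k * η : ℝ) : ℂ) + ((l * η : ℝ) : ℂ) * I))).re =
          p.re - v.re - k * η := by
        simp only [sub_re, add_re, ofReal_re, mul_re, I_re, I_im, ofReal_im]
        ring
      have r2 : (p - (v + (((k * η : ℝ) : ℂ) + ((l * η : ℝ) : ℂ) * I))).im =
          p.im - v.im - l * η := by
        simp only [sub_im, add_im, ofReal_re, mul_im, I_re, I_im, ofReal_im]
        ring
      rw [r1, r2]
      linarith
    · rw [eq_div_iff hη.ne']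
      simp
    · rw [eq_div_iff hη.ne']
      simp

theorem cont_ind {D O O' : Set ℂ} {f : ℂ → ℂ} (hf : Continuous f) {φ : ℂ → ℝ}
    (hφ : Continuous φ) {c : ℂ} {δ : ℝ} (hδ : 0 < δ)
    (hs : ∀ p, φ p ≠ 0 → p ∈ closedBall c (δ / 2)) (hO : IsOpen O) (hO' : IsOpen O')
    (hd : Disjoint O O') (hc : ∀ x ∈ D, f x ∈ ball c δ → x ∈ O ∨ x ∈ O') :
    ContinuousOn (O.indicator fun x => φ (f x)) D := by
  intro x hx
  apply ContinuousAt.continuousWithinAt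
  by_cases h : f x ∈ ball c δ
  · rcases hc x hx h with h | h
    · refine ((hφ.comp hf).continuousAt (x := x)).congr ?_
      filter_upwards [hO.mem_nhds h] with y hy
      simp [hy]
    · refine (continuousAt_const (y := (0 : ℝ))).congr ?_
      filter_upwards [hO'.mem_nhds h] with y hy
      rw [indicator_of_notMem (fun h' => Set.disjoint_left.1 hd h' hy)]
  · have h' : f x ∈ (closedBall c (δ / 2))ᶜ := fun h' =>
      h (closedBall_subset_ball (by linarith) h')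
    refine (continuousAt_const (y := (0 : ℝ))).congr ?_
    filter_upwards [hf.continuousAt.preimage_mem_nhds (isClosed_closedBall.isOpen_compl.mem_nhds h')]
      with y hy
    have : φ (f y) = 0 := by
      by_contra hne
      exact hy (hs _ hne)
    by_cases hy' : y ∈ O <;> simp [hy', this]

/-- The three-colour lemma. -/
theorem three {D σ lam : Set ℂ} (hD : Convex ℝ D) (hK : IsCompact D) {f : ℂ → ℂ}
    (hf : Continuous f) (hi : interior (f '' D) = ∅) {C1 C2 C3 : Set ℂ} (h1 : IsClosed C1)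
    (h2 : IsClosed C2) (h3 : IsClosed C3) (hσ : IsPreconnected σ) (hl : IsPreconnected lam)
    (sσ : σ ⊆ D) (sl : lam ⊆ D) {A B : ℂ} (Aσ : A ∈ σ) (Bσ : B ∈ σ) (Al : A ∈ lam)
    (Bl : B ∈ lam) (h12 : σ ⊆ C1 ∪ C2) (hA : A ∈ C1) (hB : B ∈ C2) (hl3 : lam ⊆ C3) :
    ∃ W : Set ℂ, IsCompact W ∧ IsPreconnected W ∧ W ⊆ D ∧ (∀ p ∈ W, ∀ q ∈ W, f p = f q) ∧
      (W ∩ C1).Nonempty ∧ (W ∩ C2).Nonempty ∧ (W ∩ C3).Nonempty := by
  classical
  by_contra hne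
  have hs := fun y => sep hK hf y h1 h2 h3 (fun W a b c e => by
    by_contra hn
    simp only [not_or, Set.not_disjoint_iff_nonempty_inter] at hn
    exact hne ⟨W, a, b, c, fun p hp q hq => (e p hp).trans (e q hq).symm, hn⟩)
  choose ε hε hs using hs
  obtain ⟨δ, hδ, hleb⟩ := lebesgue_number_lemma_of_metric (hK.image hf)
    (c := fun y => ball y (ε y)) (fun y => isOpen_ball)
    (fun y _ => mem_iUnion.2 ⟨y, mem_ball_self (hε y)⟩)
  have hc : ∀ c : ℂ, ∃ O1 O2 O3 : Set ℂ, IsOpen O1 ∧ IsOpen O2 ∧ IsOpen O3 ∧ Disjoint O1 O2 ∧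
      Disjoint O1 O3 ∧ Disjoint O2 O3 ∧ Disjoint O1 C1 ∧ Disjoint O2 C2 ∧ Disjoint O3 C3 ∧
      ∀ x ∈ D, f x ∈ ball c (δ / 2) → x ∈ O1 ∨ x ∈ O2 ∨ x ∈ O3 := by
    intro c
    by_cases h : ∃ x ∈ D, f x ∈ ball c (δ / 2)
    · obtain ⟨x₀, hx₀, hx⟩ := h
      obtain ⟨y, hy⟩ := hleb (f x₀) ⟨x₀, hx₀, rfl⟩
      obtain ⟨O1, O2, O3, a1, a2, a3, a4, a5, a6, a7, a8, a9, a⟩ := hs y
      refine ⟨O1, O2, O3, a1, a2, a3, a4, a5, a6, a7, a8, a9, fun x hx' hb => a x hx' (hy ?_)⟩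
      rw [mem_ball] at hx hb ⊢
      linarith [dist_triangle_right (f x) (f x₀) c]
    · exact ⟨∅, ∅, ∅, isOpen_empty, isOpen_empty, isOpen_empty, by simp, by simp, by simp, by simp,
        by simp, by simp, fun x hx hb => (h ⟨x, hx, hb⟩).elim⟩
  obtain ⟨T, φ, c, cφ, φ0, φs, φc, φ3⟩ := grid (hK.image hf) hi (half_pos hδ)
  choose O1 O2 O3 a1 a2 a3 a4 a5 a6 a7 a8 a9 a using fun n => hc (c n)
  let H : (ℤ × ℤ → Set ℂ) → ℂ → ℝ := fun O x => ∑ n ∈ T, (O n).indicator (fun x => φ n (f x)) x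
  have t0 : ∀ (O : ℤ × ℤ → Set ℂ) n x, 0 ≤ (O n).indicator (fun x => φ n (f x)) x :=
    fun O n x => indicator_nonneg (fun _ _ => φ0 _ _) _
  have H0 : ∀ O x, 0 ≤ H O x := fun O x => Finset.sum_nonneg fun n _ => t0 O n x
  have Hz : ∀ (O : ℤ × ℤ → Set ℂ) (C : Set ℂ), (∀ n, Disjoint (O n) C) → ∀ x ∈ C, H O x = 0 :=
    fun O C h x hx => Finset.sum_eq_zero fun n _ =>
      indicator_of_notMem (fun h' => Set.disjoint_left.1 (h n) h' hx) _
  have Hp : ∀ (O : ℤ × ℤ → Set ℂ) x, ∀ n ∈ T, x ∈ O n → 0 < φ n (f x) → 0 < H O x :=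
    fun O x n hn hx h => Finset.sum_pos' (fun n _ => t0 O n x) ⟨n, hn, by simpa [hx] using h⟩
  have Hn : ∀ (O : ℤ × ℤ → Set ℂ) x, H O x ≠ 0 → ∃ n, x ∈ O n ∧ 0 < φ n (f x) := by
    intro O x h
    obtain ⟨n, -, hn⟩ := Finset.exists_ne_zero_of_sum_ne_zero h
    by_cases hx : x ∈ O n
    · exact ⟨n, hx, lt_of_le_of_ne (φ0 _ _) (Ne.symm (by simpa [hx] using hn))⟩
    · simp [hx] at hn
  refine index (H1 := H O1) (H2 := H O2) (H3 := H O3) hD ?_ ?_ ?_ (fun x _ => H0 _ x)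
    (fun x _ => H0 _ x) (fun x _ => H0 _ x) (fun x hx => ?_) (fun x hx => ?_) hσ hl sσ sl Aσ Bσ
    Al Bl (fun x hx => (h12 hx).imp (Hz _ _ a7 x) (Hz _ _ a8 x)) (Hz _ _ a7 A hA)
    (Hz _ _ a8 B hB) (fun x hx => Hz _ _ a9 x (hl3 hx))
  · exact continuousOn_finsetSum _ fun n _ => cont_ind hf (cφ n) (half_pos hδ) (φs n) (a1 n)
      ((a2 n).union (a3 n)) (disjoint_union_right.2 ⟨a4 n, a5 n⟩) fun x hx hb => a n x hx hb
  · exact continuousOn_finsetSum _ fun n _ => cont_ind hf (cφ n) (half_pos hδ) (φs n) (a2 n)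
      ((a1 n).union (a3 n)) (disjoint_union_right.2 ⟨(a4 n).symm, a6 n⟩)
      fun x hx hb => by have := a n x hx hb; simp only [mem_union]; tauto
  · exact continuousOn_finsetSum _ fun n _ => cont_ind hf (cφ n) (half_pos hδ) (φs n) (a3 n)
      ((a1 n).union (a2 n)) (disjoint_union_right.2 ⟨(a5 n).symm, (a6 n).symm⟩)
      fun x hx hb => by have := a n x hx hb; simp only [mem_union]; tauto
  · obtain ⟨n, hn, hp⟩ := φc (f x) ⟨x, hx, rfl⟩
    have := a n x hx (closedBall_subset_ball (by linarith) (φs n _ hp.ne'))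
    exact this.imp (fun h => Hp _ x n hn h hp)
      (Or.imp (fun h => Hp _ x n hn h hp) fun h => Hp _ x n hn h hp)
  · by_contra hn
    simp only [not_or] at hn
    obtain ⟨n1, x1, p1⟩ := Hn _ _ hn.1
    obtain ⟨n2, x2, p2⟩ := Hn _ _ hn.2.1
    obtain ⟨n3, x3, p3⟩ := Hn _ _ hn.2.2
    rcases φ3 (f x) ⟨x, hx, rfl⟩ n1 n2 n3 p1 p2 p3 with rfl | rfl | rfl
    · exact Set.disjoint_left.1 (a4 _) x1 x2
    · exact Set.disjoint_left.1 (a5 _) x1 x3
    · exact Set.disjoint_left.1 (a6 _) x2 x3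

end Pool.Agent.MP_4b405e_nt.H94
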