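import Pool.Agent.MP_4b405e_nt.H94.Topo

/-! Triangles of level continua for three maps `f0`, `f1 = f0 + p r`, `f2 = f1 + q r`. -/

open Set Metric Complex Filter Topology

namespace Pool.Agent.MP_4b405e_nt.H94

/-- A continuum in `D` on which `g` is constant. -/
def Lev (D : Set ℂ) (g : ℂ → ℂ) (W : Set ℂ) : Prop :=
  IsCompact W ∧ IsPreconnected W ∧ W ⊆ D ∧ ∀ x ∈ W, ∀ y ∈ W, g x = g y

theorem Lev.union {D : Set ℂ} {g : ℂ → ℂ} {V W : Set ℂ} (hV : Lev D g V) (hW : Lev D g W) {x : ℂ}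
    (a : x ∈ V) (b : x ∈ W) : Lev D g (V ∪ W) := by
  refine ⟨hV.1.union hW.1, hV.2.1.union x a b hW.2.1, union_subset hV.2.2.1 hW.2.2.1, ?_⟩
  have : ∀ y ∈ V ∪ W, g y = g x := fun y hy =>
    hy.elim (fun h => hV.2.2.2 y h x a) fun h => hW.2.2.2 y h x b
  exact fun y hy z hz => (this y hy).trans (this z hz).symm

/-- The standing assumptions. -/
structure Set3 (D : Set ℂ) (f0 f1 f2 : ℂ → ℂ) (p q : ℝ) : Prop where
  cvx : Convex ℝ D
  cpt : IsCompact D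
  c0 : Continuous f0
  c1 : Continuous f1
  c2 : Continuous f2
  hp : 0 < p
  hq : 0 < q
  e1 : ∀ r, f1 r = f0 r + p * r
  e2 : ∀ r, f2 r = f1 r + q * r
  i0 : interior (f0 '' D) = ∅
  i1 : interior (f1 '' D) = ∅
  i2 : interior (f2 '' D) = ∅

variable {D : Set ℂ} {f0 f1 f2 : ℂ → ℂ} {p q : ℝ}

theorem Set3.inj01 (h : Set3 D f0 f1 f2 p q) {x y : ℂ} (a : f0 x = f0 y) (b : f1 x = f1 y) :
    x = y := by
  rw [h.e1, h.e1, a] at b
  exact mul_left_cancel₀ (ofReal_ne_zero.2 h.hp.ne') (add_left_cancel b)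

theorem Set3.inj12 (h : Set3 D f0 f1 f2 p q) {x y : ℂ} (a : f1 x = f1 y) (b : f2 x = f2 y) :
    x = y := by
  rw [h.e2, h.e2, a] at b
  exact mul_left_cancel₀ (ofReal_ne_zero.2 h.hq.ne') (add_left_cancel b)

theorem Set3.inj02 (h : Set3 D f0 f1 f2 p q) {x y : ℂ} (a : f0 x = f0 y) (b : f2 x = f2 y) :
    x = y := by
  rw [h.e2, h.e2, h.e1, h.e1, a] at b
  have hs : ((p : ℂ) + q) ≠ 0 := by
    rw [← ofReal_add]
    exact ofReal_ne_zero.2 (add_pos h.hp h.hq).ne'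
  apply mul_left_cancel₀ hs
  linear_combination b

theorem mid (h : Set3 D f0 f1 f2 p q) {α β γ : Set ℂ} (hα : Lev D f1 α) (hβ : Lev D f2 β)
    (hγ : Lev D f0 γ) {P Q R : ℂ} (Pα : P ∈ α) (Qα : Q ∈ α) (Qβ : Q ∈ β) (Rβ : R ∈ β)
    (Rγ : R ∈ γ) (Pγ : P ∈ γ) : (P + Q) / 2 ∈ α := by
  by_contra hZ
  set Z := (P + Q) / 2 with hZd
  obtain ⟨ρ, hρ, hb⟩ := Metric.isOpen_iff.1 hα.1.isClosed.isOpen_compl Z hZ
  have p0 : (p : ℂ) ≠ 0 := ofReal_ne_zero.2 h.hp.ne'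
  have q0 : (q : ℂ) ≠ 0 := ofReal_ne_zero.2 h.hq.ne'
  have s0 : (p : ℂ) + q ≠ 0 := by
    rw [← ofReal_add]
    exact ofReal_ne_zero.2 (add_pos h.hp h.hq).ne'
  set c := f1 P with hc
  have d0 := dense_affine (h.cpt.image h.c0).isClosed h.i0 (c - p * Z) p p0
  have d2 := dense_affine (h.cpt.image h.c2).isClosed h.i2 (c + q * Z) q q0
  have d1 := dense_affine (h.cpt.image h.c1).isClosed h.i1
    (c + p * q / (p + q) * (Q - Z)) (p * q / (p + q)) (div_ne_zero (mul_ne_zero p0 q0) s0)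
  obtain ⟨e, he, ⟨e0, e2⟩, e1⟩ := ((d0.2.inter_of_isOpen_left d2.2 d0.1).inter_of_isOpen_left d1.2
    (d0.1.inter d2.1)).inter_open_nonempty (ball 0 ρ) isOpen_ball ⟨0, mem_ball_self hρ⟩
  simp only [mem_ofPred_eq] at e0 e1 e2
  have ne : D.Nonempty := ⟨P, hα.2.2.1 Pα⟩
  obtain ⟨L0, k0, l0⟩ := exists_log h.cvx ne (Z := fun r => f0 r - (c - p * Z + p * e))
    (h.c0.sub continuous_const).continuousOn fun x hx hn => e0 ⟨x, hx, sub_eq_zero.1 hn⟩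
  obtain ⟨L2, k2, l2⟩ := exists_log h.cvx ne (Z := fun r => f2 r - (c + q * Z + q * e))
    (h.c2.sub continuous_const).continuousOn fun x hx hn => e2 ⟨x, hx, sub_eq_zero.1 hn⟩
  obtain ⟨L1, k1, l1⟩ := exists_log h.cvx ne
    (Z := fun r => f1 r - (c + p * q / (p + q) * (Q - Z) + p * q / (p + q) * e))
    (h.c1.sub continuous_const).continuousOn fun x hx hn => e1 ⟨x, hx, sub_eq_zero.1 hn⟩
  have fQ : f1 Q = c := hα.2.2.2 Q Qα P Pα
  have a1 : L1 P = L1 Q := const_of_exp hα.2.1 (k1.mono hα.2.2.1)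
    (fun x hx => by rw [l1 x (hα.2.2.1 hx), hα.2.2.2 x hx P Pα]) Pα Qα
  have b2 : L2 Q = L2 R := const_of_exp hβ.2.1 (k2.mono hβ.2.2.1)
    (fun x hx => by rw [l2 x (hβ.2.2.1 hx), hβ.2.2.2 x hx Q Qβ]) Qβ Rβ
  have g0 : L0 R = L0 P := const_of_exp hγ.2.1 (k0.mono hγ.2.2.1)
    (fun x hx => by rw [l0 x (hγ.2.2.1 hx), hγ.2.2.2 x hx P Pγ]) Rγ Pγ
  have b10 : L1 Q - L0 Q = L1 R - L0 R := by
    refine const_of_exp (g := fun x => L1 x - L0 x) (κ := q / (p + q)) hβ.2.1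
      ((k1.sub k0).mono hβ.2.2.1) (fun x hx => ?_) Qβ Rβ
    rw [Complex.exp_sub, div_eq_iff (exp_ne_zero _), l1 x (hβ.2.2.1 hx), l0 x (hβ.2.2.1 hx)]
    have u := hβ.2.2.2 x hx Q Qβ
    rw [h.e2, h.e2, fQ] at u
    have u1 : f1 x = c + q * Q - q * x := by linear_combination u
    have u0 : f0 x = c + q * Q - q * x - p * x := by linear_combination u1 - h.e1 x
    rw [u1, u0]
    field_simp
    ring
  have g12 : L1 R - L2 R = L1 P - L2 P := by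
    refine const_of_exp (g := fun x => L1 x - L2 x) (κ := p / (p + q)) hγ.2.1
      ((k1.sub k2).mono hγ.2.2.1) (fun x hx => ?_) Rγ Pγ
    rw [Complex.exp_sub, div_eq_iff (exp_ne_zero _), l1 x (hγ.2.2.1 hx), l2 x (hγ.2.2.1 hx)]
    have u := hγ.2.2.2 x hx P Pγ
    have u1 : f1 x = c - p * P + p * x := by linear_combination u + h.e1 x - h.e1 P
    have u2 : f2 x = c - p * P + p * x + q * x := by linear_combination u1 + h.e2 x
    rw [u1, u2, hZd]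
    field_simp
    ring
  have hM : L0 P + L2 P = L0 Q + L2 Q := by linear_combination b10 + g12 + a1 - b2 - g0
  have far : ∀ x ∈ α, ‖e‖ < ‖x - Z‖ := by
    intro x hx
    have : x ∉ ball Z ρ := fun h' => hb h' hx
    rw [mem_ball, dist_eq_norm, not_lt] at this
    rw [mem_ball_zero_iff] at he
    linarith
  have nz : ∀ x ∈ α, x - Z ≠ 0 := fun x hx =>
    norm_pos_iff.1 ((norm_nonneg _).trans_lt (far x hx))
  let g : ℂ → ℂ := fun x => cexp ((L0 x + L2 x) / 2) / (x - Z)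
  have cg : ContinuousOn g α :=
    (continuous_exp.comp_continuousOn (((k0.add k2).mono hα.2.2.1).div_const 2)).div
      (by fun_prop) nz
  have gi : ∀ x ∈ α, (g x).im ≠ 0 := by
    intro x hx hi
    have sq : g x ^ 2 = -(p * q) * (1 - (e / (x - Z)) ^ 2) := by
      have : cexp ((L0 x + L2 x) / 2) ^ 2 = cexp (L0 x) * cexp (L2 x) := by
        rw [sq, ← Complex.exp_add, ← Complex.exp_add]
        congr 1
        ring
      simp only [g]
      rw [div_pow, this, l0 x (hα.2.2.1 hx), l2 x (hα.2.2.1 hx)]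
      have u1 : f1 x = c := hα.2.2.2 x hx P Pα
      have u0 : f0 x = c - p * x := by linear_combination u1 - h.e1 x
      have u2 : f2 x = c + q * x := by linear_combination u1 + h.e2 x
      rw [u0, u2]
      have := nz x hx
      field_simp
      ring
    have w : ‖e / (x - Z)‖ < 1 := by
      rw [norm_div, div_lt_one ((norm_nonneg _).trans_lt (far x hx))]
      exact far x hx
    have w2 : ((e / (x - Z)) ^ 2).re < 1 := by
      refine (re_le_norm _).trans_lt ?_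
      rw [norm_pow]
      nlinarith [norm_nonneg (e / (x - Z))]
    have r := congrArg Complex.re sq
    rw [← ofReal_mul, ← ofReal_neg, re_ofReal_mul, sub_re, one_re, pow_two, mul_re, hi] at r
    have := mul_pos h.hp h.hq
    nlinarith [mul_self_nonneg (g x).re]
  have opp : (g Q).im = -(g P).im := by
    have : Q - Z = -(P - Z) := by rw [hZd]; ring
    simp only [g]
    rw [← hM, this, div_neg, neg_im]
  have ci : ContinuousOn (fun x => (g x).im) α := continuous_im.comp_continuousOn cg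
  rcases le_total 0 (g P).im with hs | hs
  · obtain ⟨x, hx, h0⟩ := hα.2.1.intermediate_value Qα Pα ci (show (0 : ℝ) ∈ _ from ⟨by
      simp only [opp]; linarith, hs⟩)
    exact gi x hx h0
  · obtain ⟨x, hx, h0⟩ := hα.2.1.intermediate_value Pα Qα ci (show (0 : ℝ) ∈ _ from ⟨hs, by
      simp only [opp]; linarith⟩)
    exact gi x hx h0

theorem half (hD : Convex ℝ D) (hK : IsCompact D) {g : ℂ → ℂ} (hg : Continuous g)
    (hi : interior (g '' D) = ∅) {S β γ : Set ℂ} (hS : IsCompact S) (pS : IsPreconnected S)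
    (sS : S ⊆ D) (inj : ∀ x ∈ S, ∀ y ∈ S, g x = g y → x = y) (hβ : Lev D g β)
    (hγ : IsCompact γ) (pγ : IsPreconnected γ) (sγ : γ ⊆ D) {P Q R Z : ℂ} (PS : P ∈ S)
    (QS : Q ∈ S) (Qβ : Q ∈ β) (Rβ : R ∈ β) (Rγ : R ∈ γ) (Pγ : P ∈ γ)
    (hZ : ∀ α : Set ℂ, IsCompact α → IsPreconnected α → α ⊆ S → P ∈ α → Q ∈ α → Z ∈ α) :
    ∃ V, Lev D g V ∧ Z ∈ V ∧ (V ∩ γ).Nonempty := by
  by_contra hn
  obtain ⟨ε, hε, O1, O2, O3, a1, a2, -, a4, -, -, a7, a8, a9, a⟩ := sep hK hg (g Z)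
    (C1 := {Z}) (C2 := γ) (C3 := univ) isClosed_singleton hγ.isClosed isClosed_univ
    (fun W w1 w2 w3 w4 => by
      by_contra hc
      simp only [not_or, Set.not_disjoint_iff_nonempty_inter] at hc
      obtain ⟨⟨z, hz, rfl⟩, h2, -⟩ := hc
      exact hn ⟨W, ⟨w1, w2, w3, fun x hx y hy => (w4 x hx).trans (w4 y hy).symm⟩, hz, h2⟩)
  have a' : ∀ x ∈ D, g x ∈ ball (g Z) ε → x ∈ O1 ∪ O2 := fun x hx hb =>
    (a x hx hb).imp_right fun h => h.resolve_right fun h' =>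
      Set.disjoint_left.1 a9 h' (mem_univ _)
  have Z2 : Z ∈ O2 := (a' Z (sS (hZ S hS pS Subset.rfl PS QS)) (mem_ball_self hε)).resolve_left
    fun h => Set.disjoint_left.1 a7 h rfl
  have hU : IsOpen (O2 ∩ g ⁻¹' ball (g Z) ε) := a2.inter (isOpen_ball.preimage hg)
  obtain ⟨ε', hε', U1, U2, U3, b1, b2, -, b4, -, -, b7, b8, b9, b⟩ :=
    sep (hS.diff hU) (f := fun _ => 0) continuous_const 0
    (C1 := {P}) (C2 := {Q}) (C3 := univ) isClosed_singleton isClosed_singleton isClosed_univ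
    (fun W w1 w2 w3 _ => by
      by_contra hc
      simp only [not_or, Set.not_disjoint_iff_nonempty_inter] at hc
      obtain ⟨⟨x, hx, rfl⟩, ⟨y, hy, rfl⟩, -⟩ := hc
      exact (w3 (hZ W w1 w2 (fun _ h => (w3 h).1) hx hy)).2 ⟨Z2, mem_ball_self hε⟩)
  obtain ⟨W, w1, w2, w3, w4, ⟨x, hx, x1⟩, ⟨y, hy, y2⟩, ⟨z, hz, z3⟩⟩ := three hD hK hg hi
    (C1 := S \ U1) (C2 := S \ U2) (C3 := γ ∪ β) (hS.diff b1).isClosed (hS.diff b2).isClosed
    (hγ.union hβ.1).isClosed pS (pγ.union R Rγ Rβ hβ.2.1) sS (union_subset sγ hβ.2.2.1) PS QS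
    (Or.inl Pγ) (Or.inr Qβ) (fun x hx => by
      by_cases h : x ∈ U1
      · exact Or.inr ⟨hx, fun h' => Set.disjoint_left.1 b4 h h'⟩
      · exact Or.inl ⟨hx, h⟩)
    ⟨PS, fun h => Set.disjoint_left.1 b7 h rfl⟩ ⟨QS, fun h => Set.disjoint_left.1 b8 h rfl⟩
    Subset.rfl
  obtain rfl : x = y := inj x x1.1 y y2.1 (w4 x hx y hy)
  have xU : x ∈ O2 ∩ g ⁻¹' ball (g Z) ε := by
    by_contra hc
    rcases b x ⟨x1.1, hc⟩ (mem_ball_self hε') with h | h | h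
    · exact x1.2 h
    · exact y2.2 h
    · exact Set.disjoint_left.1 b9 h (mem_univ _)
  have fin : ∀ V, Lev D g V → x ∈ V → ∀ w ∈ V, w ∉ γ := by
    intro V hV xV w wV wγ
    have : V ⊆ O2 := hV.2.1.subset_right_of_subset_union a1 a2 a4
      (fun u hu => a' u (hV.2.2.1 hu) (by rw [hV.2.2.2 u hu x xV]; exact xU.2)) ⟨x, xV, xU.1⟩
    exact Set.disjoint_left.1 a8 (this wV) wγ
  rcases z3 with z3 | z3
  · exact fin W ⟨w1, w2, w3, w4⟩ hx z hz z3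
  · exact fin (W ∪ β) (Lev.union ⟨w1, w2, w3, w4⟩ hβ hz z3) (Or.inl hx) R (Or.inr Rβ) Rγ

/-- `P` and `Q` are joined by a level continuum of `f0` followed by one of `f2`. -/
def Tri (D : Set ℂ) (f0 f2 : ℂ → ℂ) (P Q : ℂ) : Prop :=
  ∃ β γ R, Lev D f2 β ∧ Lev D f0 γ ∧ Q ∈ β ∧ R ∈ β ∧ R ∈ γ ∧ P ∈ γ

theorem bisect (h : Set3 D f0 f1 f2 p q) {S : Set ℂ} (hS : Lev D f1 S) {P Q : ℂ} (PS : P ∈ S)
    (QS : Q ∈ S) (hT : Tri D f0 f2 P Q) :
    (P + Q) / 2 ∈ S ∧ Tri D f0 f2 P ((P + Q) / 2) ∧ Tri D f0 f2 ((P + Q) / 2) Q := by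
  obtain ⟨β, γ, R, hβ, hγ, Qβ, Rβ, Rγ, Pγ⟩ := hT
  have hZ : ∀ α : Set ℂ, IsCompact α → IsPreconnected α → α ⊆ S → P ∈ α → Q ∈ α →
      (P + Q) / 2 ∈ α := fun α a1 a2 a3 a4 a5 =>
    mid h ⟨a1, a2, a3.trans hS.2.2.1, fun x hx y hy => hS.2.2.2 x (a3 hx) y (a3 hy)⟩ hβ hγ a4 a5
      Qβ Rβ Rγ Pγ
  obtain ⟨V, hV, ZV, R', R1, R2⟩ := half h.cvx h.cpt h.c2 h.i2 hS.1 hS.2.1 hS.2.2.1
    (fun x hx y hy e => h.inj12 (hS.2.2.2 x hx y hy) e) hβ hγ.1 hγ.2.1 hγ.2.2.1 PS QS Qβ Rβ Rγ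
    Pγ hZ
  obtain ⟨V', hV', ZV', R'', R3, R4⟩ := half h.cvx h.cpt h.c0 h.i0 hS.1 hS.2.1 hS.2.2.1
    (fun x hx y hy e => h.inj01 e (hS.2.2.2 x hx y hy)) hγ hβ.1 hβ.2.1 hβ.2.2.1 QS PS Pγ Rγ Rβ
    Qβ (fun α a1 a2 a3 a4 a5 => hZ α a1 a2 a3 a5 a4)
  exact ⟨hZ S hS.1 hS.2.1 Subset.rfl PS QS, ⟨V, γ, R', hV, hγ, ZV, R1, R2, Pγ⟩,
    ⟨β, V', R'', hβ, hV', Qβ, R4, R3, ZV'⟩⟩

theorem triangle (h : Set3 D f0 f1 f2 p q) {S : Set ℂ} (hS : Lev D f1 S) {P Q : ℂ} (PS : P ∈ S)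
    (QS : Q ∈ S) (hT : Tri D f0 f2 P Q) : P = Q := by
  have s0 : 0 < p + q := add_pos h.hp h.hq
  set X := P + ((q / (p + q) : ℝ) : ℂ) * (Q - P) with hX
  have step : ∀ n : ℕ, ∃ P' ∈ S, ∃ Q' ∈ S, Tri D f0 f2 P' Q' ∧ ‖Q' - P'‖ = ‖Q - P‖ * (1 / 2) ^ n ∧
      ∃ θ : ℝ, 0 ≤ θ ∧ θ ≤ 1 ∧ X = P' + θ * (Q' - P') := by
    intro n
    induction n with
    | zero => exact ⟨P, PS, Q, QS, hT, by simp, q / (p + q), (div_pos h.hq s0).le,
        (div_le_one s0).2 (by linarith [h.hp]), rfl⟩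
    | succ n ih =>
      obtain ⟨P', a1, Q', a2, a3, a4, θ, t0, t1, a5⟩ := ih
      obtain ⟨b1, b2, b3⟩ := bisect h hS a1 a2 a3
      rcases le_total θ (1 / 2) with t | t
      · refine ⟨P', a1, _, b1, b2, ?_, 2 * θ, by linarith, by linarith, ?_⟩
        · rw [show (P' + Q') / 2 - P' = (Q' - P') / 2 by ring, norm_div, a4, pow_succ]
          simp only [Complex.norm_ofNat]
          ring
        · rw [a5]
          push_cast
          ring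
      · refine ⟨_, b1, Q', a2, b3, ?_, 2 * θ - 1, by linarith, by linarith, ?_⟩
        · rw [show Q' - (P' + Q') / 2 = (Q' - P') / 2 by ring, norm_div, a4, pow_succ]
          simp only [Complex.norm_ofNat]
          ring
        · rw [a5]
          push_cast
          ring
  have XS : X ∈ S := by
    rw [← hS.1.isClosed.closure_eq, Metric.mem_closure_iff]
    intro ε hε
    have ht : Tendsto (fun n : ℕ => ‖Q - P‖ * (1 / 2 : ℝ) ^ n) atTop (𝓝 (‖Q - P‖ * 0)) :=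
      (tendsto_pow_atTop_nhds_zero_of_lt_one (by norm_num) (by norm_num)).const_mul _
    rw [mul_zero] at ht
    obtain ⟨n, hn⟩ := (ht.eventually (gt_mem_nhds hε)).exists
    obtain ⟨P', a1, Q', -, -, a4, θ, t0, t1, a5⟩ := step n
    refine ⟨P', a1, ?_⟩
    rw [dist_eq_norm, a5, add_sub_cancel_left, norm_mul, Complex.norm_real, Real.norm_of_nonneg t0,
      a4]
    have : 0 ≤ ‖Q - P‖ * (1 / 2 : ℝ) ^ n := by positivity
    nlinarith
  obtain ⟨β, γ, R, hβ, hγ, Qβ, Rβ, Rγ, Pγ⟩ := hT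
  have s1 : (p : ℂ) + q ≠ 0 := by
    rw [← ofReal_add]
    exact ofReal_ne_zero.2 s0.ne'
  have u0 := hγ.2.2.2 R Rγ P Pγ
  have u1 := hS.2.2.2 P PS Q QS
  have u2 := hβ.2.2.2 R Rβ Q Qβ
  have RX : R = X := by
    rw [hX]
    push_cast
    field_simp
    linear_combination u2 - h.e2 R + h.e2 Q - h.e1 R + h.e1 P - u0 - u1
  have RP : R = P := h.inj01 u0 (hS.2.2.2 R (RX ▸ XS) P PS)
  exact h.inj12 u1 (RP ▸ u2)

end Pool.Agent.MP_4b405e_nt.H94
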